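import Pool.Agent.Helper21.DN.Stmts

set_option autoImplicit false

/-! (DETI) the determinant inequality, in the case of equality -/

namespace Pool.Agent.Helper21.DN

universe u

theorem deti_K {k K L : Type u} [Field k] [Field K] [Field L] [Algebra K L]
    [FiniteDimensional K L] (κ : k →+* K) (v : AddValuation L (WithTop ℤ)) (h : Ram κ v) (x : K)
    (hx : x ≠ 0) :
    ∃ a : ℤ, v (algebraMap K L x) = (((Module.finrank K L : ℤ) * a : ℤ) : WithTop ℤ) := by
  obtain ⟨vE, -, h2⟩ := h.sub ⊥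
  have h3 := h2 (algebraMap K (⊥ : IntermediateField K L) x)
  have h4 : ((algebraMap K (⊥ : IntermediateField K L) x : (⊥ : IntermediateField K L)) : L) =
      algebraMap K L x := rfl
  rw [h4] at h3
  have h5 : vE (algebraMap K (⊥ : IntermediateField K L) x) ≠ ⊤ := by
    intro h6
    rw [AddValuation.top_iff] at h6
    exact hx (by simpa using h6)
  obtain ⟨a, ha⟩ := WithTop.ne_top_iff_exists.1 h5
  refine ⟨a, ?_⟩
  rw [h3, ← ha, IntermediateField.finrank_bot']
  rw [← WithTop.coe_nsmul]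
  simp

theorem deti_sum {L : Type u} [Field L] (v : AddValuation L (WithTop ℤ)) (n : ℕ)
    (T : Fin n → L) (hT : ∀ i, v (T i) = ⊤ ∨ ∃ a : ℤ, v (T i) = (((n : ℤ) * a + ((i : ℕ) : ℤ) : ℤ) :
      WithTop ℤ)) (m : ℤ) (hm : v (∑ i, T i) = (m : WithTop ℤ)) (i : Fin n) :
    (m : WithTop ℤ) ≤ v (T i) := by
  obtain ⟨i0, -, h0⟩ := Finset.exists_min_image Finset.univ (fun i => v (T i)) ⟨i, Finset.mem_univ i⟩
  refine le_trans ?_ (h0 i (Finset.mem_univ i))
  by_contra hcon
  have hlt : v (T i0) < (m : WithTop ℤ) := lt_of_not_ge hcon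
  have hne : v (T i0) ≠ ⊤ := ne_top_of_lt hlt
  have hoth : ∀ j, j ≠ i0 → v (T i0) < v (T j) := by
    intro j hj
    refine lt_of_le_of_ne (h0 j (Finset.mem_univ j)) ?_
    intro he
    apply hj
    rcases hT i0 with h1 | ⟨a, ha⟩
    · exact absurd h1 hne
    rcases hT j with h2 | ⟨b, hb⟩
    · exact absurd (he.trans h2) hne
    rw [ha, hb] at he
    have he2 : (n : ℤ) * a + ((i0 : ℕ) : ℤ) = (n : ℤ) * b + ((j : ℕ) : ℤ) := WithTop.coe_injective he
    have e1 : ((j : ℕ) : ℤ) % n = ((j : ℕ) : ℤ) :=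
      Int.emod_eq_of_lt (by positivity) (by exact_mod_cast j.2)
    have e2 : ((i0 : ℕ) : ℤ) % n = ((i0 : ℕ) : ℤ) :=
      Int.emod_eq_of_lt (by positivity) (by exact_mod_cast i0.2)
    have e3 : ((j : ℕ) : ℤ) = ((i0 : ℕ) : ℤ) + n * (a - b) := by linarith [mul_sub (n : ℤ) a b]
    have e4 : ((j : ℕ) : ℤ) % n = ((i0 : ℕ) : ℤ) % n := by
      rw [e3, Int.add_mul_emod_self_left]
    rw [e1, e2] at e4
    exact Fin.ext (by exact_mod_cast e4)
  have hs : v (T i0) < v (∑ j ∈ Finset.univ.erase i0, T j) :=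
    AddValuation.map_lt_sum v hne (fun j hj => hoth j (Finset.ne_of_mem_erase hj))
  have hsum : ∑ j, T j = T i0 + ∑ j ∈ Finset.univ.erase i0, T j :=
    (Finset.add_sum_erase _ _ (Finset.mem_univ i0)).symm
  rw [hsum, AddValuation.map_add_eq_of_lt_left v hs] at hm
  rw [hm] at hlt
  exact lt_irrefl _ hlt

theorem deti_prod {L : Type u} [Field L] (v : AddValuation L (WithTop ℤ)) {ι : Type*}
    (s : Finset ι) (f : ι → L) : v (∏ j ∈ s, f j) = ∑ j ∈ s, v (f j) := by
  classical
  induction s using Finset.induction_on with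
  | empty => simp
  | insert a s ha ih =>
    rw [Finset.prod_insert ha, Finset.sum_insert ha, AddValuation.map_mul, ih]

theorem st_DETI : ST_DETI.{u} := by
  intro k K L _ _ _ _ _ _ κ v hR n hn b c m hb hc A hA hdet hsum
  have hKv : ∀ x : K, x ≠ 0 → ∃ a : ℤ, v (algebraMap K L x) = (((n : ℤ) * a : ℤ) : WithTop ℤ) := by
    intro x hx
    obtain ⟨a, ha⟩ := deti_K κ v hR x hx
    exact ⟨a, by rw [ha, hn]⟩
  -- every entry satisfies the inequality
  have hT : ∀ i j, v (A i j • b i) = v (algebraMap K L (A i j)) + (((i : ℕ) : ℤ) : WithTop ℤ) := by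
    intro i j
    rw [Algebra.smul_def, AddValuation.map_mul, hb]
  have hmin : ∀ i j, (m j : WithTop ℤ) ≤ v (A i j • b i) := by
    intro i j
    refine deti_sum v n (fun i => A i j • b i) ?_ (m j) ?_ i
    · intro i
      by_cases h0 : A i j = 0
      · left
        simp [h0]
      · right
        obtain ⟨a, ha⟩ := hKv _ h0
        refine ⟨a, ?_⟩
        change v (A i j • b i) = _
        rw [hT, ha]
        norm_cast
    · rw [← hA j]
      exact hc j
  -- some term of the determinant has valuation at most zero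
  have hex : ∃ π : Equiv.Perm (Fin n), v (algebraMap K L (∏ j, A (π j) j)) ≤ 0 := by
    by_contra hcon
    push Not at hcon
    have h1 : algebraMap K L A.det = ∑ π : Equiv.Perm (Fin n),
        algebraMap K L (((Equiv.Perm.sign π : ℤ) : K) * ∏ j, A (π j) j) := by
      rw [Matrix.det_apply', map_sum]
    have h2 : (0 : WithTop ℤ) < v (algebraMap K L A.det) := by
      rw [h1]
      refine AddValuation.map_lt_sum v (by simp) ?_
      intro π _
      rw [map_mul, AddValuation.map_mul]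
      have h3 : v (algebraMap K L ((Equiv.Perm.sign π : ℤ) : K)) = 0 := by
        rcases Int.units_eq_one_or (Equiv.Perm.sign π) with h | h
        · rw [h]
          simp
        · rw [h]
          simp
      rw [h3, zero_add]
      exact hcon π
    rw [hdet] at h2
    exact lt_irrefl _ h2
  obtain ⟨π, hπ⟩ := hex
  have hne : ∀ j, A (π j) j ≠ 0 := by
    intro j h0
    have h1 : ∏ j, A (π j) j = 0 := Finset.prod_eq_zero (Finset.mem_univ j) h0
    rw [h1] at hπ
    simp at hπ
  choose a ha using fun j => hKv _ (hne j)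
  have hsuma : ∑ j, (n : ℤ) * a j ≤ 0 := by
    have h1 : v (algebraMap K L (∏ j, A (π j) j)) = ((∑ j, (n : ℤ) * a j : ℤ) : WithTop ℤ) := by
      rw [map_prod, deti_prod]
      simp only [ha]
      norm_cast
    rw [h1] at hπ
    exact_mod_cast hπ
  have hge : ∀ j, m j ≤ (n : ℤ) * a j + (((π j : Fin n) : ℕ) : ℤ) := by
    intro j
    have h1 := hmin (π j) j
    rw [hT, ha] at h1
    exact_mod_cast h1
  have hperm : ∑ j, (((π j : Fin n) : ℕ) : ℤ) = ∑ j : Fin n, ((j : ℕ) : ℤ) :=
    Equiv.sum_comp π (fun j : Fin n => ((j : ℕ) : ℤ))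
  have heq : ∀ j, m j = (n : ℤ) * a j + (((π j : Fin n) : ℕ) : ℤ) := by
    have h1 : ∑ j, ((n : ℤ) * a j + (((π j : Fin n) : ℕ) : ℤ) - m j) ≤ 0 := by
      rw [Finset.sum_sub_distrib, Finset.sum_add_distrib, hperm, hsum]
      linarith
    have h2 : ∀ j ∈ Finset.univ, 0 ≤ (n : ℤ) * a j + (((π j : Fin n) : ℕ) : ℤ) - m j :=
      fun j _ => by linarith [hge j]
    have h3 := (Finset.sum_eq_zero_iff_of_nonneg h2).1 (le_antisymm h1 (Finset.sum_nonneg h2))
    intro j
    linarith [h3 j (Finset.mem_univ j)]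
  intro i j hij
  rw [heq i, heq j] at hij
  obtain ⟨q, hq⟩ := hij
  have e1 : (((π j : Fin n) : ℕ) : ℤ) % n = (((π j : Fin n) : ℕ) : ℤ) :=
    Int.emod_eq_of_lt (by positivity) (by exact_mod_cast (π j).2)
  have e2 : (((π i : Fin n) : ℕ) : ℤ) % n = (((π i : Fin n) : ℕ) : ℤ) :=
    Int.emod_eq_of_lt (by positivity) (by exact_mod_cast (π i).2)
  have e3 : (((π i : Fin n) : ℕ) : ℤ) = (((π j : Fin n) : ℕ) : ℤ) + n * (q + a j - a i) := by
    linear_combination hq
  have e4 : (((π i : Fin n) : ℕ) : ℤ) % n = (((π j : Fin n) : ℕ) : ℤ) % n := by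
    rw [e3, Int.add_mul_emod_self_left]
  rw [e1, e2] at e4
  exact π.injective (Fin.ext (by exact_mod_cast e4))

end Pool.Agent.Helper21.DN
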